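import Pool.Agent.Q38.SB.Main

set_option autoImplicit false

/-!
# MP_64e319_co: two bases of a matroid in one spherical subcomplex (full answer: yes)
-/

namespace Pool.Agent.Results.MP_64e319_co.TwoBasesSphere

open Pool.Agent.Q38.SB

/-- For every finite matroid `M` without coloops and any two bases `B`, `B'` of `M` there is a
subcomplex `K` of the independence complex of `M` which contains `B` and `B'` as faces and whose
geometric realisation is homeomorphic to the unit sphere of `ℝ ^ r`, where `r` is the rank of `M`. -/
theorem result {α : Type*} [Fintype α] (M : Matroid α) (hM : ∀ e, ¬ M.IsColoop e)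
    (B B' : Set α) (hB : M.IsBase B) (hB' : M.IsBase B') :
    ∃ K : Set (Set α), IsComplex K ∧ (∀ F ∈ K, M.Indep F) ∧ B ∈ K ∧ B' ∈ K ∧
      Nonempty (Realization K ≃ₜ Metric.sphere (0 : EuclideanSpace ℝ (Fin B.ncard)) 1) :=
  spherical hM hB hB'

end Pool.Agent.Results.MP_64e319_co.TwoBasesSphere
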